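import Pool.Agent.Helper58.SU.StP
import Pool.Agent.Helper48.BK.M_Vau

/-! # Module VAUS: Vaughan's identity in a short interval -/

set_option autoImplicit false

namespace Pool.Agent.Helper79.SU

open Finset ArithmeticFunction
open Pool.Agent.Helper48.BK
open Pool.Agent.Helper58.SU
open Pool.Agent.Helper2 (lo hi mob zet vaughan sum_conv lo_apply hi_apply abs_mob_le zet_apply
  lo_mul_lo_eq_zero abs_lo_mul_lo_le hi_mob_zet_eq_zero hi_mob_zet_sq_le)

/-- the exponential restricted to `(y, y + h]` -/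
noncomputable def G_VS (y h : ℕ) (α : ℝ) (n : ℕ) : ℂ :=
  if y < n ∧ n ≤ y + h then ex (n * α) else 0

theorem set_VS (y h a : ℕ) (ha : 1 ≤ a) :
    (Ioc 0 ((y + h) / a)).filter (fun b => y < a * b) = Ioc (y / a) ((y + h) / a) := by
  ext b
  simp only [mem_filter, mem_Ioc]
  rw [Nat.div_lt_iff_lt_mul ha, mul_comm a b]
  constructor
  · rintro ⟨⟨_, h2⟩, h3⟩
    exact ⟨h3, h2⟩
  · rintro ⟨h1, h2⟩
    refine ⟨⟨?_, h2⟩, h1⟩
    rcases Nat.eq_zero_or_pos b with h0 | h0
    · subst h0; omega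
    · exact h0

theorem restrict_VS (y h : ℕ) (α : ℝ) (f : ℕ → ℂ) (a : ℕ) (ha : 1 ≤ a) :
    ∑ b ∈ Ioc 0 (y + h), f b * G_VS y h α (a * b) =
      ∑ b ∈ Ioc (y / a) ((y + h) / a), f b * ex (b * (a * α)) := by
  have hs : (Ioc 0 (y + h)).filter (fun b => y < a * b ∧ a * b ≤ y + h) =
      Ioc (y / a) ((y + h) / a) := by
    rw [← set_VS y h a ha]
    ext b
    simp only [mem_filter, mem_Ioc]
    constructor
    · rintro ⟨⟨h1, _⟩, h3, h4⟩
      exact ⟨⟨h1, (Nat.le_div_iff_mul_le ha).2 (by rwa [mul_comm])⟩, h3⟩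
    · rintro ⟨⟨h1, h2⟩, h4⟩
      have h3 := (Nat.le_div_iff_mul_le ha).1 h2
      exact ⟨⟨h1, h2.trans (Nat.div_le_self _ _)⟩, h4, by rwa [mul_comm]⟩
  rw [← hs, sum_filter]
  refine Finset.sum_congr rfl fun b _ => ?_
  unfold G_VS
  split_ifs with h
  · congr 2
    push_cast; ring
  · rw [mul_zero]

theorem sumlog_VS (hg : StGeo1) (M N : ℕ) (hMN : M ≤ N) (t : ℝ) :
    ‖∑ b ∈ Ioc M N, ((Real.log b : ℝ) : ℂ) * ex (b * t)‖ ≤
      Real.log N * gs ((N - M : ℕ) : ℝ) t := by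
  obtain ⟨g1, g2, g3, _⟩ := hg
  rcases Nat.eq_zero_or_pos N with rfl | hN
  · simp
  set δ : ℕ → ℝ := fun k => Real.log ((k + 1 : ℕ) : ℝ) - Real.log (k : ℝ) with hδ
  have e1 : ∑ b ∈ Ioc M N, ((Real.log b : ℝ) : ℂ) * ex (b * t) =
      ∑ k ∈ Ico 1 N, (δ k : ℂ) * ∑ b ∈ Ioc (max k M) N, ex (b * t) := by
    have h1 : ∀ b ∈ Ioc M N, ((Real.log b : ℝ) : ℂ) * ex (b * t) =
        ∑ k ∈ Ico 1 b, (δ k : ℂ) * ex (b * t) := by
      intro b hb
      rw [← Finset.sum_mul]
      congr 1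
      have hb1 : 1 ≤ b := by have := (mem_Ioc.1 hb).1; omega
      have h2 : ∑ k ∈ Ico 1 b, δ k = Real.log b := by
        have := Finset.sum_Ico_sub (fun k : ℕ => Real.log (k : ℝ)) (m := 1) (n := b) hb1
        simp only [Nat.cast_one, Real.log_one, sub_zero] at this
        rw [← this]
      rw [← h2]
      push_cast
      rfl
    rw [Finset.sum_congr rfl h1]
    simp_rw [Finset.mul_sum]
    apply Finset.sum_comm'
    intro b k
    simp only [mem_Ioc, mem_Ico, max_lt_iff]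
    omega
  rw [e1]
  have hδ0 : ∀ k ∈ Ico 1 N, 0 ≤ δ k := by
    intro k hk
    have hk1 := (mem_Ico.1 hk).1
    simp only [hδ]
    rw [sub_nonneg]
    exact Real.log_le_log (by exact_mod_cast hk1) (by push_cast; linarith)
  calc ‖∑ k ∈ Ico 1 N, (δ k : ℂ) * ∑ b ∈ Ioc (max k M) N, ex (b * t)‖
      ≤ ∑ k ∈ Ico 1 N, ‖(δ k : ℂ) * ∑ b ∈ Ioc (max k M) N, ex (b * t)‖ := norm_sum_le _ _
    _ ≤ ∑ k ∈ Ico 1 N, δ k * gs ((N - M : ℕ) : ℝ) t := by
        refine Finset.sum_le_sum fun k hk => ?_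
        rw [norm_mul, Complex.norm_real, Real.norm_of_nonneg (hδ0 k hk)]
        refine mul_le_mul_of_nonneg_left ?_ (hδ0 k hk)
        have hkN := (mem_Ico.1 hk).2
        have hmN : max k M ≤ N := max_le hkN.le hMN
        have h3 := g1 (max k M) (N - max k M) t
        rw [Nat.add_sub_cancel' hmN] at h3
        refine h3.trans (g2 _ _ t (Nat.cast_nonneg _) ?_)
        have h4 : N - max k M ≤ N - M := Nat.sub_le_sub_left (le_max_right _ _) _
        exact_mod_cast h4
    _ = Real.log N * gs ((N - M : ℕ) : ℝ) t := by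
        rw [← Finset.sum_mul]
        congr 1
        have := Finset.sum_Ico_sub (fun k : ℕ => Real.log (k : ℝ)) (m := 1) (n := N) hN
        simp only [Nat.cast_one, Real.log_one, sub_zero] at this
        rw [← this]

theorem gs_succ_VS (N t : ℝ) (_hN : 0 ≤ N) : gs (N + 1) t ≤ gs N t + 1 := by
  have h0 : 0 ≤ nd t := abs_nonneg _
  unfold gs
  by_cases h1 : N * nd t ≤ 1
  · rw [if_pos h1]
    by_cases h2 : (N + 1) * nd t ≤ 1
    · rw [if_pos h2]
    · rw [if_neg h2]
      push Not at h2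
      have h3 : 0 < nd t := by
        rcases h0.eq_or_lt with h | h
        · rw [← h] at h2; linarith
        · exact h
      rw [div_le_iff₀ h3]
      exact h2.le
  · rw [if_neg h1]
    push Not at h1
    have h2 : ¬ (N + 1) * nd t ≤ 1 := by
      push Not
      nlinarith
    rw [if_neg h2]
    linarith

/-- a dyadic block of the bilinear part -/
theorem block_VS (C : ℝ) (hC : 0 < C)
    (hII : ∀ (y h P V q : ℕ) (b0 : ℤ) (α : ℝ) (a b : ℕ → ℝ), 1 ≤ y →
      h ≤ y → 1 ≤ P → Apx α b0 q →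
      ‖∑ u ∈ Ioc P (2 * P), ∑ v ∈ (Ioc V ((y + h) / u)).filter (fun v => y < u * v),
          ((a u * b v : ℝ) : ℂ) * ex (u * v * α)‖ ^ 2 ≤
        C * (∑ u ∈ Ioc P (2 * P), a u ^ 2) * (∑ v ∈ Ioc 0 ((y + h) / P), b v ^ 2) *
          (((h : ℝ) / (P * q) + 1) * ((P : ℝ) * h / y + 1 + q * (1 + Real.log q))))
    (y h U q : ℕ) (b0 : ℤ) (α : ℝ) (hy3 : 3 ≤ y) (hhy : h ≤ y) (hU : 1 ≤ U) (hq : q ≤ y)
    (hα : Apx α b0 q) (P : ℕ) (hP : U ≤ P) :
    ‖∑ u ∈ Ioc P (2 * P), ∑ v ∈ Ioc (y / u) ((y + h) / u),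
      ((hi vonMangoldt U u * (hi mob U * zet) v : ℝ) : ℂ) * ex (u * v * α)‖ ≤
      50 * √C * ((h : ℝ) / √q + √((y : ℝ) * h / U) + √((y : ℝ) * q)) * Real.log y ^ 3 := by
  have hL := log3_Vau hy3
  set L := Real.log y with hLdef
  have hq1 : 1 ≤ q := hα.1
  have hqr : (1 : ℝ) ≤ q := by exact_mod_cast hq1
  have hUr : (1 : ℝ) ≤ U := by exact_mod_cast hU
  have hyr : (3 : ℝ) ≤ y := by exact_mod_cast hy3
  have hhr : (0 : ℝ) ≤ h := Nat.cast_nonneg h
  have hhyr : (h : ℝ) ≤ y := by exact_mod_cast hhy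
  have hqyr : (q : ℝ) ≤ y := by exact_mod_cast hq
  have hP1 : 1 ≤ P := hU.trans hP
  have hPr : (1 : ℝ) ≤ P := by exact_mod_cast hP1
  have hPUr : (U : ℝ) ≤ P := by exact_mod_cast hP
  set E : ℝ := (h : ℝ) / √q + √((y : ℝ) * h / U) + √((y : ℝ) * q) with hE
  have hE0 : 0 ≤ E := by positivity
  have hset : ∑ u ∈ Ioc P (2 * P), ∑ v ∈ Ioc (y / u) ((y + h) / u),
      ((hi vonMangoldt U u * (hi mob U * zet) v : ℝ) : ℂ) * ex (u * v * α) =
      ∑ u ∈ Ioc P (2 * P), ∑ v ∈ (Ioc 0 ((y + h) / u)).filter (fun v => y < u * v),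
      ((hi vonMangoldt U u * (hi mob U * zet) v : ℝ) : ℂ) * ex (u * v * α) := by
    refine Finset.sum_congr rfl fun u hu => ?_
    rw [set_VS y h u (by have := (mem_Ioc.1 hu).1; omega)]
  by_cases hUP : U * P ≤ y + h
  · have hPx : P ≤ 2 * y := by
      have : P ≤ U * P := Nat.le_mul_of_pos_left P hU
      omega
    have hPxr : (P : ℝ) ≤ 2 * y := by exact_mod_cast hPx
    have h1 := hII y h P 0 q b0 α (fun u => hi vonMangoldt U u) (fun v => (hi mob U * zet) v)
      (by omega) hhy hP1 hα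
    rw [← hset] at h1
    have h2 : ∑ u ∈ Ioc P (2 * P), (hi vonMangoldt U u) ^ 2 ≤ P * (9 * L ^ 2) := by
      calc ∑ u ∈ Ioc P (2 * P), (hi vonMangoldt U u) ^ 2
          ≤ ∑ u ∈ Ioc P (2 * P), 9 * L ^ 2 := by
            refine Finset.sum_le_sum fun u hu => ?_
            have hu1 := (mem_Ioc.1 hu).1
            have hu2 := (mem_Ioc.1 hu).2
            rw [hi_apply]
            split_ifs
            · simp only [ne_eq, OfNat.ofNat_ne_zero, not_false_eq_true, zero_pow]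
              positivity
            · have h3 : vonMangoldt u ≤ 3 * L := by
                refine vonMangoldt_le_log.trans ?_
                have h4 : (u : ℝ) ≤ (y : ℝ) ^ 3 := by
                  have h5 : (u : ℝ) ≤ 2 * P := by exact_mod_cast hu2
                  have h6 : 0 ≤ (y : ℝ) * (y - 3) * (y + 3) :=
                    mul_nonneg (mul_nonneg (by linarith) (by linarith)) (by linarith)
                  nlinarith
                calc Real.log u ≤ Real.log ((y : ℝ) ^ 3) :=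
                      Real.log_le_log (by exact_mod_cast (by omega : 0 < u)) h4
                  _ = 3 * L := by
                      rw [Real.log_pow, ← hLdef]; norm_num
              have h5 : (0 : ℝ) ≤ vonMangoldt u := vonMangoldt_nonneg
              nlinarith
        _ = P * (9 * L ^ 2) := by
            rw [Finset.sum_const, nsmul_eq_mul, Nat.card_Ioc]
            congr 2
            omega
    have hlogX : Real.log ((y + h : ℕ) : ℝ) ≤ 2 * L := by
      have h4 : ((y + h : ℕ) : ℝ) ≤ (y : ℝ) ^ 2 := by push_cast; nlinarith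
      calc Real.log ((y + h : ℕ) : ℝ) ≤ Real.log ((y : ℝ) ^ 2) :=
            Real.log_le_log (by exact_mod_cast (by omega : 0 < y + h)) h4
        _ = 2 * L := by rw [Real.log_pow, ← hLdef]; norm_num
    have hlogX0 : 0 ≤ Real.log ((y + h : ℕ) : ℝ) := Real.log_natCast_nonneg _
    have h3 : ∑ v ∈ Ioc 0 ((y + h) / P), ((hi mob U * zet) v) ^ 2 ≤ 54 * L ^ 3 * (y / P) := by
      have h4 := hi_mob_zet_sq_le U ((y + h) / P) (y + h) (Nat.div_le_self _ _)
      simp only [Complex.norm_real, Real.norm_eq_abs, sq_abs] at h4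
      refine h4.trans ?_
      have h5 : (((y + h) / P : ℕ) : ℝ) ≤ 2 * ((y : ℝ) / P) := by
        refine (Nat.cast_div_le).trans ?_
        rw [← mul_div_assoc]
        apply div_le_div_of_nonneg_right _ (by linarith)
        push_cast
        linarith
      have h6 : (1 + Real.log ((y + h : ℕ) : ℝ)) ^ 3 ≤ 27 * L ^ 3 := by
        have : (1 + Real.log ((y + h : ℕ) : ℝ)) ^ 3 ≤ (3 * L) ^ 3 :=
          pow_le_pow_left₀ (by linarith) (by linarith) 3
        linarith [this, mul_pow 3 L 3]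
      calc (1 + Real.log ((y + h : ℕ) : ℝ)) ^ 3 * (((y + h) / P : ℕ) : ℝ)
          ≤ (27 * L ^ 3) * (2 * ((y : ℝ) / P)) := mul_le_mul h6 h5 (Nat.cast_nonneg _)
            (by positivity)
        _ = 54 * L ^ 3 * (y / P) := by ring
    have hPU : (P : ℝ) ≤ 2 * y / U := by
      rw [le_div_iff₀ (by linarith)]
      have : ((U * P : ℕ) : ℝ) ≤ ((y + h : ℕ) : ℝ) := by exact_mod_cast hUP
      push_cast at this
      linarith
    have hlq : Real.log q ≤ L := Real.log_le_log (by linarith) hqyr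
    have hlq0 : 0 ≤ Real.log q := Real.log_nonneg hqr
    have hy0 : (0 : ℝ) < y := by linarith
    have hP0 : (0 : ℝ) < P := by linarith
    have hq0 : (0 : ℝ) < q := by linarith
    have hU0 : (0 : ℝ) < U := by linarith
    have h9 : (y : ℝ) * (((h : ℝ) / (P * q) + 1) * ((P : ℝ) * h / y + 1 + q * (1 + Real.log q))) ≤
        5 * L * ((h : ℝ) ^ 2 / q + (y : ℝ) * h / U + y * q) := by
      have e : (y : ℝ) * (((h : ℝ) / (P * q) + 1) *
          ((P : ℝ) * h / y + 1 + q * (1 + Real.log q))) =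
          (h : ℝ) ^ 2 / q + (y * h / P) / q + (y * h / P) * (1 + Real.log q) + P * h + y +
            y * q * (1 + Real.log q) := by
        field_simp
        ring
      rw [e]
      have a0 : 0 ≤ (y : ℝ) * h / P := by positivity
      have a1 : (y : ℝ) * h / P ≤ y * h / U :=
        div_le_div_of_nonneg_left (by positivity) hU0 hPUr
      have a2 : (y * h / P : ℝ) / q ≤ y * h / U :=
        (div_le_self a0 hqr).trans a1
      have a3 : (y * h / P : ℝ) * (1 + Real.log q) ≤ (y * h / U) * (2 * L) :=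
        mul_le_mul a1 (by linarith) (by linarith) (by positivity)
      have a4 : (P : ℝ) * h ≤ 2 * (y * h / U) := by
        calc (P : ℝ) * h ≤ (2 * y / U) * h := mul_le_mul_of_nonneg_right hPU hhr
          _ = 2 * (y * h / U) := by ring
      have a5 : (y : ℝ) ≤ y * q := by nlinarith
      have a6 : (y : ℝ) * q * (1 + Real.log q) ≤ (y * q) * (2 * L) :=
        mul_le_mul_of_nonneg_left (by linarith) (by positivity)
      have a7 : 0 ≤ (h : ℝ) ^ 2 / q := by positivity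
      have a8 : 0 ≤ (y : ℝ) * h / U := by positivity
      have a9 : 0 ≤ (y : ℝ) * q := by positivity
      have b1 : (h : ℝ) ^ 2 / q ≤ L * ((h : ℝ) ^ 2 / q) := by nlinarith
      have b2 : (y : ℝ) * h / U ≤ L * ((y : ℝ) * h / U) := by nlinarith
      have b3 : (y : ℝ) * q ≤ L * ((y : ℝ) * q) := by nlinarith
      nlinarith
    have h4 : ‖∑ u ∈ Ioc P (2 * P), ∑ v ∈ Ioc (y / u) ((y + h) / u),
      ((hi vonMangoldt U u * (hi mob U * zet) v : ℝ) : ℂ) * ex (u * v * α)‖ ^ 2 ≤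
        C * (P * (9 * L ^ 2)) * (54 * L ^ 3 * (y / P)) *
          (((h : ℝ) / (P * q) + 1) * ((P : ℝ) * h / y + 1 + q * (1 + Real.log q))) := by
      refine h1.trans ?_
      have hs0 : 0 ≤ ∑ v ∈ Ioc 0 ((y + h) / P), ((hi mob U * zet) v) ^ 2 :=
        Finset.sum_nonneg fun _ _ => sq_nonneg _
      have hs1 : 0 ≤ ∑ u ∈ Ioc P (2 * P), (hi vonMangoldt U u) ^ 2 :=
        Finset.sum_nonneg fun _ _ => sq_nonneg _
      refine mul_le_mul_of_nonneg_right ?_ (by positivity)
      gcongr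
    have h5 : C * (P * (9 * L ^ 2)) * (54 * L ^ 3 * (y / P)) *
          (((h : ℝ) / (P * q) + 1) * ((P : ℝ) * h / y + 1 + q * (1 + Real.log q))) =
        486 * C * L ^ 5 * ((y : ℝ) *
          (((h : ℝ) / (P * q) + 1) * ((P : ℝ) * h / y + 1 + q * (1 + Real.log q)))) := by
      generalize (((h : ℝ) / (P * q) + 1) * ((P : ℝ) * h / y + 1 + q * (1 + Real.log q))) = Z
      field_simp
      ring
    have h6 : (h : ℝ) ^ 2 / q + (y : ℝ) * h / U + y * q ≤ E ^ 2 := by
      have hsq : (√(q : ℝ)) ^ 2 = q := Real.sq_sqrt (by linarith)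
      have hsU : (√((y : ℝ) * h / U)) ^ 2 = y * h / U := Real.sq_sqrt (by positivity)
      have hsx : (√((y : ℝ) * q)) ^ 2 = y * q := Real.sq_sqrt (by positivity)
      have e1 : ((h : ℝ) / √q) ^ 2 = h ^ 2 / q := by rw [div_pow, hsq]
      have p1 : 0 ≤ (h : ℝ) / √q := by positivity
      have p2 : 0 ≤ √((y : ℝ) * h / U) := Real.sqrt_nonneg _
      have p3 : 0 ≤ √((y : ℝ) * q) := Real.sqrt_nonneg _
      rw [← e1, ← hsU, ← hsx, hE]
      nlinarith [mul_nonneg p1 p2, mul_nonneg p1 p3, mul_nonneg p2 p3]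
    have h7 : ‖∑ u ∈ Ioc P (2 * P), ∑ v ∈ Ioc (y / u) ((y + h) / u),
      ((hi vonMangoldt U u * (hi mob U * zet) v : ℝ) : ℂ) * ex (u * v * α)‖ ^ 2 ≤
        (50 * √C * E * L ^ 3) ^ 2 := by
      refine h4.trans ?_
      rw [h5]
      have hsC : (√C) ^ 2 = C := Real.sq_sqrt hC.le
      calc 486 * C * L ^ 5 * ((y : ℝ) *
            (((h : ℝ) / (P * q) + 1) * ((P : ℝ) * h / y + 1 + q * (1 + Real.log q))))
          ≤ 486 * C * L ^ 5 * (5 * L * E ^ 2) := by
            refine mul_le_mul_of_nonneg_left (h9.trans ?_) (by positivity)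
            exact mul_le_mul_of_nonneg_left h6 (by positivity)
        _ = 2430 * C * E ^ 2 * L ^ 6 := by ring
        _ ≤ 2500 * C * E ^ 2 * L ^ 6 := by gcongr; norm_num
        _ = (50 * √C * E * L ^ 3) ^ 2 := by
            rw [mul_pow, mul_pow, mul_pow, hsC]; ring
    exact (sq_le_sq₀ (norm_nonneg _) (by positivity)).1 h7
  · have h0 : ∑ u ∈ Ioc P (2 * P), ∑ v ∈ Ioc (y / u) ((y + h) / u),
      ((hi vonMangoldt U u * (hi mob U * zet) v : ℝ) : ℂ) * ex (u * v * α) = 0 := by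
      refine Finset.sum_eq_zero fun u hu => Finset.sum_eq_zero fun v hv => ?_
      have hu1 := (mem_Ioc.1 hu).1
      have hv2 := (mem_Ioc.1 hv).2
      have hvU : v ≤ U := by
        have h8 : v * u ≤ y + h := (Nat.le_div_iff_mul_le (by omega)).1 hv2
        by_contra hc
        push Not at hc hUP
        have : U * P ≤ v * u := Nat.mul_le_mul hc.le hu1.le
        omega
      rw [hi_mob_zet_eq_zero U v hvU]
      simp
    rw [h0, norm_zero]
    positivity

theorem hVAUS (ha : StTI) (hb : StTiis) (hc : StGeo1) (_hd : StDiv) : StVaus := by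
  obtain ⟨C1, hC1, hTI⟩ := ha
  obtain ⟨C2, hC2, hII⟩ := hb
  refine ⟨4 * (C1 + 1) + 300 * √C2, by positivity, ?_⟩
  intro y h U q b0 α hh hhy hU hU2 hq hα
  have hy3 : 3 ≤ y := hh.trans hhy
  have hL := log3_Vau hy3
  set L := Real.log y with hLdef
  have hq1 : 1 ≤ q := hα.1
  have hqr : (1 : ℝ) ≤ q := by exact_mod_cast hq1
  have hUr : (1 : ℝ) ≤ U := by exact_mod_cast hU
  have hyr : (3 : ℝ) ≤ y := by exact_mod_cast hy3
  have hhr : (3 : ℝ) ≤ h := by exact_mod_cast hh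
  have hhyr : (h : ℝ) ≤ y := by exact_mod_cast hhy
  have hlh : Real.log h ≤ L := Real.log_le_log (by linarith) hhyr
  have hlh0 : 0 ≤ Real.log h := Real.log_natCast_nonneg h
  have hLX : Real.log ((y + h : ℕ) : ℝ) ≤ 2 * L := by
    have h4 : ((y + h : ℕ) : ℝ) ≤ (y : ℝ) ^ 2 := by push_cast; nlinarith
    calc Real.log ((y + h : ℕ) : ℝ) ≤ Real.log ((y : ℝ) ^ 2) :=
          Real.log_le_log (by exact_mod_cast (by omega : 0 < y + h)) h4
      _ = 2 * L := by rw [Real.log_pow, ← hLdef]; norm_num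
  have hLX0 : 0 ≤ Real.log ((y + h : ℕ) : ℝ) := Real.log_natCast_nonneg _
  obtain ⟨g1, g2, g3, _⟩ := id hc
  set G := G_VS y h α with hG
  have hG0 : ∀ n, y + h < n → G n = 0 := by
    intro n hn
    rw [hG]; unfold G_VS
    rw [if_neg (by omega)]
  have hGy : ∀ n, n ≤ y → G n = 0 := by
    intro n hn
    rw [hG]; unfold G_VS
    rw [if_neg (by omega)]
  have hS : SI (fun n => Λ n) y h α = ∑ n ∈ Ioc 0 (y + h), ((lo vonMangoldt U n : ℝ) : ℂ) * G n +
      ∑ n ∈ Ioc 0 (y + h), (((lo mob U * log) n : ℝ) : ℂ) * G n -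
      ∑ n ∈ Ioc 0 (y + h), ((((lo vonMangoldt U * lo mob U) * zet) n : ℝ) : ℂ) * G n +
      ∑ n ∈ Ioc 0 (y + h), (((hi vonMangoldt U * (hi mob U * zet)) n : ℝ) : ℂ) * G n := by
    rw [← Finset.sum_add_distrib, ← Finset.sum_sub_distrib, ← Finset.sum_add_distrib]
    unfold SI
    have hsub : ∑ n ∈ Ioc y (y + h), ((Λ n : ℝ) : ℂ) * ex (n * α) =
        ∑ n ∈ Ioc 0 (y + h), ((vonMangoldt n : ℝ) : ℂ) * G n := by
      have h1 : ∑ n ∈ Ioc y (y + h), ((Λ n : ℝ) : ℂ) * ex (n * α) =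
          ∑ n ∈ Ioc y (y + h), ((vonMangoldt n : ℝ) : ℂ) * G n := by
        refine Finset.sum_congr rfl fun n hn => ?_
        have hGn : G n = ex (n * α) := by
          rw [hG]; unfold G_VS
          rw [if_pos (mem_Ioc.1 hn)]
        rw [hGn]
      rw [h1]
      apply Finset.sum_subset
      · exact Finset.Ioc_subset_Ioc_left (Nat.zero_le _)
      · intro n hn1 hn2
        rw [hGy n, mul_zero]
        rw [mem_Ioc] at hn1 hn2
        omega
    rw [hsub]
    refine Finset.sum_congr rfl fun n hn => ?_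
    have h := congrArg (fun f : ArithmeticFunction ℝ => f n) (vaughan U)
    simp only [sub_eq_add_neg, ArithmeticFunction.add_apply, ArithmeticFunction.neg_apply] at h
    rw [h]
    push_cast
    ring
  set F : ℝ := (h : ℝ) / √q + √((y : ℝ) * h / U) + √((y : ℝ) * q) + (U : ℝ) ^ 2 with hF
  have hsq1 : (1 : ℝ) ≤ √q := by
    rw [Real.one_le_sqrt]; exact hqr
  have hxq : (h : ℝ) / q ≤ h / √q := by
    apply div_le_div_of_nonneg_left (by linarith) (by linarith)
    have := Real.sq_sqrt (show (0 : ℝ) ≤ q by linarith)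
    nlinarith
  have hqh : (q : ℝ) ≤ h := by exact_mod_cast hq
  have hqx : (q : ℝ) ≤ √((y : ℝ) * q) := by
    apply Real.le_sqrt_of_sq_le
    nlinarith
  have hxU : 0 ≤ √((y : ℝ) * h / U) := Real.sqrt_nonneg _
  have hFU : (h : ℝ) / q + (U : ℝ) ^ 2 + q ≤ F := by rw [hF]; linarith
  have hUF : (U : ℝ) ^ 2 ≤ F := by
    have : 0 ≤ (h : ℝ) / q := by positivity
    linarith
  have hF0 : 0 ≤ F := by positivity
  have hL3 : L ^ 3 ≤ L ^ 7 := pow_le_pow_right₀ hL (by norm_num)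
  have hL4 : L ^ 4 ≤ L ^ 7 := pow_le_pow_right₀ hL (by norm_num)
  have hlog : ∀ n : ℕ, 0 < n → n ≤ y + h → Real.log n ≤ Real.log ((y + h : ℕ) : ℝ) := by
    intro n h1 h2
    exact Real.log_le_log (by exact_mod_cast h1) (by exact_mod_cast h2)
  have hgs : ∀ a : ℕ, 0 < a → gs (((y + h) / a - y / a : ℕ) : ℝ) (a * α) ≤
      gs ((h : ℝ) / a) (a * α) + 1 := by
    intro a ha
    have h0 : (0 : ℝ) ≤ (h : ℝ) / a := by positivity
    refine le_trans (g2 _ ((h : ℝ) / a + 1) _ (Nat.cast_nonneg _) ?_) (gs_succ_VS _ _ h0)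
    have h1 : (y + h) / a - y / a ≤ h / a + 1 := by
      rw [Nat.add_div ha]
      generalize y / a = A
      generalize h / a = B
      split_ifs <;> omega
    calc (((y + h) / a - y / a : ℕ) : ℝ) ≤ ((h / a + 1 : ℕ) : ℝ) := by exact_mod_cast h1
      _ ≤ (h : ℝ) / a + 1 := by
          push_cast
          have : ((h / a : ℕ) : ℝ) ≤ (h : ℝ) / a := Nat.cast_div_le
          linarith
  have hgs0 : ∀ a : ℕ, 0 ≤ gs ((h : ℝ) / a) (a * α) := by
    intro a
    exact g3 _ _ (by positivity)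
  -- first term
  have t1 : ∑ n ∈ Ioc 0 (y + h), ((lo vonMangoldt U n : ℝ) : ℂ) * G n = 0 := by
    refine Finset.sum_eq_zero fun n _ => ?_
    rw [lo_apply]
    split_ifs with h1
    · rw [hGy n, mul_zero]
      have : U ≤ U ^ 2 := by nlinarith
      omega
    · simp
  -- the sum of the type one bounds
  have hT : ∀ J : ℕ, 1 ≤ J → J ≤ U * U →
      ∑ a ∈ Ioc 0 (y + h), (if a ≤ J then Real.log ((y + h : ℕ) : ℝ) *
        (gs ((h : ℝ) / a) (a * α) + 1) else 0) ≤ 2 * (C1 + 1) * F * L ^ 3 := by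
    intro J hJ1 hJU
    have hJx : J ≤ h := hJU.trans (by rw [← sq]; exact hU2)
    have h1 := hTI h J q b0 α hh hq hα hJ1 hJx
    have hJr : (J : ℝ) ≤ (U : ℝ) ^ 2 := by
      have : (J : ℝ) ≤ ((U * U : ℕ) : ℝ) := by exact_mod_cast hJU
      push_cast at this
      nlinarith
    have h2 : ∑ a ∈ Icc 1 J, (gs ((h : ℝ) / a) (a * α) + 1) ≤ (C1 + 1) * F * L ^ 2 := by
      rw [Finset.sum_add_distrib, Finset.sum_const, Nat.card_Icc, nsmul_eq_mul, mul_one]
      have h3 : ((J + 1 - 1 : ℕ) : ℝ) ≤ F * L ^ 2 := by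
        rw [Nat.add_sub_cancel]
        have : (1 : ℝ) ≤ L ^ 2 := one_le_pow₀ hL
        nlinarith
      have h4 : C1 * ((h : ℝ) / q + J + q) * Real.log h ^ 2 ≤ C1 * F * L ^ 2 := by
        have : (h : ℝ) / q + J + q ≤ F := by linarith
        gcongr
      linarith
    calc ∑ a ∈ Ioc 0 (y + h), (if a ≤ J then Real.log ((y + h : ℕ) : ℝ) *
        (gs ((h : ℝ) / a) (a * α) + 1) else 0)
        = ∑ a ∈ (Ioc 0 (y + h)).filter (· ≤ J), Real.log ((y + h : ℕ) : ℝ) *
            (gs ((h : ℝ) / a) (a * α) + 1) := by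
          rw [← Finset.sum_filter]
      _ ≤ ∑ a ∈ Icc 1 J, Real.log ((y + h : ℕ) : ℝ) * (gs ((h : ℝ) / a) (a * α) + 1) := by
          apply Finset.sum_le_sum_of_subset_of_nonneg
          · intro a ha
            rw [mem_filter, mem_Ioc] at ha
            exact mem_Icc.2 ⟨ha.1.1, ha.2⟩
          · intro a _ _
            have := hgs0 a
            exact mul_nonneg hLX0 (by linarith)
      _ = Real.log ((y + h : ℕ) : ℝ) * ∑ a ∈ Icc 1 J, (gs ((h : ℝ) / a) (a * α) + 1) := by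
          rw [Finset.mul_sum]
      _ ≤ (2 * L) * ((C1 + 1) * F * L ^ 2) := by
          refine mul_le_mul hLX h2 ?_ (by linarith)
          exact Finset.sum_nonneg fun a _ => by have := hgs0 a; linarith
      _ = 2 * (C1 + 1) * F * L ^ 3 := by ring
  have hdle : ∀ a : ℕ, y / a ≤ (y + h) / a := fun a => Nat.div_le_div_right (Nat.le_add_right _ _)
  -- second term
  have t2 : ‖∑ n ∈ Ioc 0 (y + h), (((lo mob U * log) n : ℝ) : ℂ) * G n‖ ≤
      2 * (C1 + 1) * F * L ^ 3 := by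
    rw [sum_conv _ _ (y + h) G hG0]
    refine (norm_sum_le _ _).trans (le_trans ?_ (hT U hU (Nat.le_mul_of_pos_left U hU)))
    refine Finset.sum_le_sum fun a ha => ?_
    have ha1 := (mem_Ioc.1 ha).1
    have e : ∑ b ∈ Ioc 0 (y + h), ((lo mob U a : ℝ) : ℂ) * ((log b : ℝ) : ℂ) * G (a * b) =
        ((lo mob U a : ℝ) : ℂ) * ∑ b ∈ Ioc (y / a) ((y + h) / a), ((Real.log b : ℝ) : ℂ) *
          ex (b * (a * α)) := by
      rw [← restrict_VS y h α (fun b => ((Real.log b : ℝ) : ℂ)) a ha1, Finset.mul_sum]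
      refine Finset.sum_congr rfl fun b _ => ?_
      rw [log_apply, hG]
      ring
    rw [e, norm_mul, Complex.norm_real, lo_apply]
    split_ifs with h'
    · have h1 : ‖mob a‖ ≤ 1 := by rw [Real.norm_eq_abs]; exact abs_mob_le a
      have h2 := sumlog_VS hc (y / a) ((y + h) / a) (hdle a) (a * α)
      have h3 : Real.log (((y + h) / a : ℕ) : ℝ) ≤ Real.log ((y + h : ℕ) : ℝ) := by
        rcases Nat.eq_zero_or_pos ((y + h) / a) with h0 | h0
        · rw [h0, Nat.cast_zero, Real.log_zero]; exact hLX0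
        · exact hlog _ h0 (Nat.div_le_self _ _)
      calc ‖mob a‖ * ‖∑ b ∈ Ioc (y / a) ((y + h) / a), ((Real.log b : ℝ) : ℂ) *
            ex (b * (a * α))‖
          ≤ 1 * (Real.log ((y + h : ℕ) : ℝ) * (gs ((h : ℝ) / a) (a * α) + 1)) := by
            refine mul_le_mul h1 (h2.trans ?_) (norm_nonneg _) zero_le_one
            exact mul_le_mul h3 (hgs a ha1) (g3 _ _ (Nat.cast_nonneg _)) hLX0
        _ = _ := one_mul _
    · simp
  -- third term
  have t3 : ‖∑ n ∈ Ioc 0 (y + h), ((((lo vonMangoldt U * lo mob U) * zet) n : ℝ) : ℂ) * G n‖ ≤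
      2 * (C1 + 1) * F * L ^ 3 := by
    rw [sum_conv _ _ (y + h) G hG0]
    refine (norm_sum_le _ _).trans (le_trans ?_ (hT (U * U) (Nat.mul_pos hU hU) le_rfl))
    refine Finset.sum_le_sum fun a ha => ?_
    have ha1 := (mem_Ioc.1 ha).1
    have e : ∑ b ∈ Ioc 0 (y + h),
        (((lo vonMangoldt U * lo mob U) a : ℝ) : ℂ) * ((zet b : ℝ) : ℂ) * G (a * b) =
        (((lo vonMangoldt U * lo mob U) a : ℝ) : ℂ) * ∑ b ∈ Ioc (y / a) ((y + h) / a),
          ex (b * (a * α)) := by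
      have e2 : ∑ b ∈ Ioc (y / a) ((y + h) / a), ex (b * (a * α)) =
          ∑ b ∈ Ioc (y / a) ((y + h) / a), (fun _ : ℕ => (1 : ℂ)) b * ex (b * (a * α)) :=
        Finset.sum_congr rfl fun b _ => (one_mul _).symm
      rw [e2, ← restrict_VS y h α (fun _ => 1) a ha1, Finset.mul_sum]
      refine Finset.sum_congr rfl fun b hb => ?_
      rw [zet_apply (mem_Ioc.1 hb).1, hG]
      push_cast
      ring
    rw [e, norm_mul, Complex.norm_real]
    split_ifs with h'
    · have h1 : ‖(lo vonMangoldt U * lo mob U) a‖ ≤ Real.log ((y + h : ℕ) : ℝ) := by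
        rw [Real.norm_eq_abs]
        exact (abs_lo_mul_lo_le U a).trans (hlog a ha1 (mem_Ioc.1 ha).2)
      have h2 := g1 (y / a) ((y + h) / a - y / a) (a * α)
      rw [Nat.add_sub_cancel' (hdle a)] at h2
      exact mul_le_mul h1 (h2.trans (hgs a ha1)) (norm_nonneg _) hLX0
    · rw [lo_mul_lo_eq_zero _ _ U a (by omega)]
      simp
  -- fourth term
  have t4 : ‖∑ n ∈ Ioc 0 (y + h), (((hi vonMangoldt U * (hi mob U * zet)) n : ℝ) : ℂ) * G n‖ ≤
      300 * √C2 * F * L ^ 4 := by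
    rw [sum_conv _ _ (y + h) G hG0]
    set W : ℕ → ℂ := fun u => ∑ v ∈ Ioc (y / u) ((y + h) / u),
      ((hi vonMangoldt U u * (hi mob U * zet) v : ℝ) : ℂ) * ex (u * v * α) with hW
    set K := Nat.log 2 (y + h) + 1 with hK
    have hxK : y + h < 2 ^ K := Nat.lt_pow_succ_log_self (by norm_num) (y + h)
    have hyK : y + h ≤ U * 2 ^ K := by
      have : 2 ^ K ≤ U * 2 ^ K := Nat.le_mul_of_pos_left _ hU
      omega
    have e1 : ∑ a ∈ Ioc 0 (y + h), ∑ b ∈ Ioc 0 (y + h), ((hi vonMangoldt U a : ℝ) : ℂ) *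
        (((hi mob U * zet) b : ℝ) : ℂ) * G (a * b) = ∑ u ∈ Ioc 0 (y + h), W u := by
      refine Finset.sum_congr rfl fun a ha => ?_
      have ha1 := (mem_Ioc.1 ha).1
      have h5 := restrict_VS y h α (fun b => ((hi vonMangoldt U a : ℝ) : ℂ) *
        (((hi mob U * zet) b : ℝ) : ℂ)) a ha1
      rw [← hG] at h5
      rw [h5]
      simp only [hW]
      refine Finset.sum_congr rfl fun b _ => ?_
      have e3 : (b : ℝ) * (a * α) = a * b * α := by ring
      rw [e3]
      push_cast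
      ring
    have e2 : ∑ u ∈ Ioc 0 (y + h), W u = ∑ u ∈ Ioc 0 (U * 2 ^ K), W u := by
      apply Finset.sum_subset
      · exact Finset.Ioc_subset_Ioc_right hyK
      · intro u hmem hu
        simp only [hW]
        have : (y + h) / u = 0 := by
          apply Nat.div_eq_of_lt
          simp only [mem_Ioc, not_and, not_le] at hu
          exact hu (mem_Ioc.1 hmem).1
        rw [this]
        simp
    have e3 : ∑ u ∈ Ioc U (U * 2 ^ K), W u = ∑ u ∈ Ioc 0 (U * 2 ^ K), W u := by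
      apply Finset.sum_subset
      · exact Finset.Ioc_subset_Ioc_left (Nat.zero_le _)
      · intro u hmem hu
        simp only [hW]
        have : u ≤ U := by
          simp only [mem_Ioc, not_and, not_le] at hu
          by_contra hc
          push Not at hc
          have h9 := hu hc
          have := (mem_Ioc.1 hmem).2
          omega
        refine Finset.sum_eq_zero fun v _ => ?_
        rw [hi_apply, if_pos this]
        simp
    rw [e1, e2, ← e3, dyadic_Vau W U K]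
    calc ‖∑ i ∈ range K, ∑ u ∈ Ioc (U * 2 ^ i) (2 * (U * 2 ^ i)), W u‖
        ≤ ∑ i ∈ range K, ‖∑ u ∈ Ioc (U * 2 ^ i) (2 * (U * 2 ^ i)), W u‖ := norm_sum_le _ _
      _ ≤ ∑ i ∈ range K, 50 * √C2 * ((h : ℝ) / √q + √((y : ℝ) * h / U) + √((y : ℝ) * q)) *
            L ^ 3 := by
          refine Finset.sum_le_sum fun i _ => ?_
          simp only [hW]
          exact block_VS C2 hC2 hII y h U q b0 α hy3 hhy hU (hq.trans hhy) hα (U * 2 ^ i)
            (Nat.le_mul_of_pos_right _ (by positivity))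
      _ = K * (50 * √C2 * ((h : ℝ) / √q + √((y : ℝ) * h / U) + √((y : ℝ) * q)) * L ^ 3) := by
          rw [Finset.sum_const, nsmul_eq_mul, card_range]
      _ ≤ (6 * L) * (50 * √C2 * F * L ^ 3) := by
          have hk := K_Vau (x := y + h) (by omega)
          have hk2 : (K : ℝ) ≤ 6 * L := by
            refine hk.trans ?_
            linarith
          have h6 : (h : ℝ) / √q + √((y : ℝ) * h / U) + √((y : ℝ) * q) ≤ F := by
            rw [hF]; nlinarith
          gcongr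
      _ = 300 * √C2 * F * L ^ 4 := by ring
  have k3 : 2 * (C1 + 1) * F * L ^ 3 ≤ 2 * (C1 + 1) * F * L ^ 7 :=
    mul_le_mul_of_nonneg_left hL3 (by positivity)
  have k4 : 300 * √C2 * F * L ^ 4 ≤ 300 * √C2 * F * L ^ 7 :=
    mul_le_mul_of_nonneg_left hL4 (by positivity)
  rw [hS, t1, zero_add]
  refine (norm_add_le _ _).trans ?_
  have h5 := norm_sub_le (∑ n ∈ Ioc 0 (y + h), (((lo mob U * log) n : ℝ) : ℂ) * G n)
      (∑ n ∈ Ioc 0 (y + h), ((((lo vonMangoldt U * lo mob U) * zet) n : ℝ) : ℂ) * G n)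
  have h7 : (4 * (C1 + 1) + 300 * √C2) * F * L ^ 7 =
      2 * (C1 + 1) * F * L ^ 7 + 2 * (C1 + 1) * F * L ^ 7 + 300 * √C2 * F * L ^ 7 := by
    ring
  rw [h7]
  linarith

end Pool.Agent.Helper79.SU
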